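import Pool.Agent.R763.StrLevel

set_option autoImplicit false
open Real Set Filter Topology

namespace Pool.Agent.K9h61.StrEnd

theorem sin_sub_le {x : ℝ} (hx : |x| ≤ 1) : |sin x - x| ≤ x ^ 2 := by
  have h := Real.sin_bound hx
  have h0 := abs_nonneg x
  have hx2 : x ^ 2 = |x| ^ 2 := (sq_abs x).symm
  have h3 : |x ^ 3 / 6| = |x| ^ 3 / 6 := by rw [abs_div, abs_pow]; norm_num
  have h1 : |sin x - x| ≤ |sin x - (x - x ^ 3 / 6)| + |x ^ 3 / 6| := by
    have e : sin x - x = (sin x - (x - x ^ 3 / 6)) + (-(x ^ 3 / 6)) := by ring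
    calc |sin x - x| = |(sin x - (x - x ^ 3 / 6)) + (-(x ^ 3 / 6))| := by rw [← e]
      _ ≤ _ := by
        refine (abs_add_le _ _).trans ?_
        rw [abs_neg]
  rw [h3] at h1
  rw [hx2]
  have a1 : |x| ^ 3 ≤ |x| ^ 2 := by
    calc |x| ^ 3 = |x| ^ 2 * |x| := by ring
      _ ≤ |x| ^ 2 * 1 := mul_le_mul_of_nonneg_left hx (by positivity)
      _ = _ := by ring
  have a2 : |x| ^ 5 ≤ |x| ^ 2 := by
    calc |x| ^ 5 = |x| ^ 2 * |x| ^ 3 := by ring
      _ ≤ |x| ^ 2 * 1 := mul_le_mul_of_nonneg_left (pow_le_one₀ h0 hx) (by positivity)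
      _ = _ := by ring
  have a3 : 0 ≤ |x| ^ 2 := by positivity
  linarith

/-- differentiability from lower approximations -/
theorem deriv_of_lower {f : ℝ → ℝ} {θ d : ℝ}
    (H : ∀ ε > 0, ∃ q' : ℝ → ℝ, ∃ P δ : ℝ, 0 < δ ∧ ContinuousAt q' θ ∧ |q' θ - d| ≤ ε ∧
      ∀ φ ψ, |φ - θ| < δ → |ψ - θ| < δ →
        f ψ + (φ - ψ) * q' ψ - ε * |φ - ψ| - P * (φ - ψ) ^ 2 ≤ f φ) :
    HasDerivAt f d θ := by
  rw [hasDerivAt_iff_isLittleO, Asymptotics.isLittleO_iff]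
  intro c hc
  obtain ⟨q', P, δ, hδ, hcont, hqd, hl⟩ := H (c / 4) (by positivity)
  have h1 : ∀ᶠ φ in 𝓝 θ, |q' φ - q' θ| < c / 4 := by
    have := Metric.continuousAt_iff'.1 hcont (c / 4) (by positivity)
    simpa [Real.dist_eq] using this
  have h2 : ∀ᶠ φ in 𝓝 θ, |φ - θ| < δ := by
    have := Metric.ball_mem_nhds θ hδ
    filter_upwards [this] with φ hφ
    simpa [Real.dist_eq] using hφ
  have h3 : ∀ᶠ φ in 𝓝 θ, |P| * |φ - θ| < c / 4 := by
    have hc1 : ContinuousAt (fun φ : ℝ => |P| * |φ - θ|) θ := by fun_prop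
    have := hc1.eventually_lt (continuousAt_const (y := c / 4)) (by simp; positivity)
    exact this
  filter_upwards [h1, h2, h3] with φ hφ1 hφ2 hφ3
  have hx0 : 0 ≤ |φ - θ| := abs_nonneg _
  have hθδ : |θ - θ| < δ := by simpa using hδ
  have A := hl φ θ hφ2 hθδ
  have B := hl θ φ hθδ hφ2
  rw [Real.norm_eq_abs, Real.norm_eq_abs, smul_eq_mul]
  have e1 : |(φ - θ) * (q' θ - d)| ≤ c / 4 * |φ - θ| := by
    rw [abs_mul, mul_comm]
    exact mul_le_mul_of_nonneg_right hqd hx0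
  have e2 : |(φ - θ) * (q' φ - q' θ)| ≤ c / 4 * |φ - θ| := by
    rw [abs_mul, mul_comm]
    exact mul_le_mul_of_nonneg_right hφ1.le hx0
  have e3 : |P * (φ - θ) ^ 2| ≤ c / 4 * |φ - θ| := by
    rw [abs_mul, abs_pow, pow_two, ← mul_assoc]
    exact mul_le_mul_of_nonneg_right hφ3.le hx0
  have e4 : |θ - φ| = |φ - θ| := abs_sub_comm _ _
  have e5 : (θ - φ) ^ 2 = (φ - θ) ^ 2 := by ring
  rw [e4, e5] at B
  rw [abs_le] at e1 e2 e3 ⊢
  constructor
  · nlinarith [e1.1, e1.2, e2.1, e2.2, e3.1, e3.2]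
  · nlinarith [e1.1, e1.2, e2.1, e2.2, e3.1, e3.2]

/-- The conclusion of the level theorem. -/
def Lev (h : ℝ → ℝ) (s1 : ℝ) : Prop :=
  ∀ s, s1 < s → s < π / 2 → ∀ θ : ℝ, ∃ g : ℝ → ℝ, ∃ c : ℝ,
      (∀ φ, 0 < g φ) ∧ (∀ φ, g φ - g (φ + π) = h φ - h (φ + π)) ∧
      (∀ φ, ((g φ + g (φ + π)) / 2) ^ 2 = ((h φ + h (φ + π)) / 2) ^ 2 + c) ∧
      (g θ = (h (θ + s) + h (θ - s)) / (2 * cos s)) ∧
      (∀ φ, cos (φ - θ) * g θ + sin (φ - θ) * ((h (θ + s) - h (θ - s)) / (2 * sin s)) ≤ g φ)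

noncomputable def DD (h : ℝ → ℝ) (φ : ℝ) : ℝ := (h φ - h (φ + π)) / 2
noncomputable def HH (h : ℝ → ℝ) (φ : ℝ) : ℝ := (h φ + h (φ + π)) / 2

section main

variable {h : ℝ → ℝ} {r R Lc s1 : ℝ}

theorem DD_deriv (hc : Continuous h) (hper : ∀ θ, h (θ + 2 * π) = h θ) (hr : 0 < r)
    (hlow : ∀ θ, r ≤ h θ) (hup : ∀ θ, h θ ≤ R) (hL0 : 0 ≤ Lc)
    (hL : ∀ a b, |h a - h b| ≤ Lc * |a - b|) (hs1 : 0 ≤ s1) (hs1' : s1 < π / 2)
    (lev : Lev h s1) (θ : ℝ) : HasDerivAt (DD h) (DD h (θ + π / 2)) θ := by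
  have hpi := Real.pi_pos
  have hR : 0 < R := hr.trans_le ((hlow 0).trans (hup 0))
  apply deriv_of_lower
  intro ε hε
  -- choose s
  have hcq : ContinuousAt (fun s : ℝ => (h (θ + s) - h (θ - s)) / (2 * sin s)) (π / 2) := by
    apply ContinuousAt.div
    · fun_prop
    · fun_prop
    · simp
  have ev1 : ∀ᶠ s in 𝓝[<] (π / 2), |(h (θ + s) - h (θ - s)) / (2 * sin s) - DD h (θ + π / 2)| ≤ ε := by
    have hval : (h (θ + π / 2) - h (θ - π / 2)) / (2 * sin (π / 2)) = DD h (θ + π / 2) := by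
      simp only [DD, Real.sin_pi_div_two, mul_one]
      rw [show θ + π / 2 + π = (θ - π / 2) + 2 * π by ring, hper]
    have := Metric.continuousAt_iff'.1 hcq ε hε
    rw [hval] at this
    filter_upwards [nhdsWithin_le_nhds this] with s hs
    rw [Real.dist_eq] at hs
    exact hs.le
  have ev2 : ∀ᶠ s in 𝓝[<] (π / 2), cos s * (R + 2 * R * Lc / ε) < r := by
    have hc1 : ContinuousAt (fun s : ℝ => cos s * (R + 2 * R * Lc / ε)) (π / 2) := by fun_prop
    have := hc1.eventually_lt (continuousAt_const (y := r)) (by simpa using hr)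
    exact nhdsWithin_le_nhds this
  have ev3 : ∀ᶠ s in 𝓝[<] (π / 2), s1 < s := by
    exact nhdsWithin_le_nhds (lt_mem_nhds hs1')
  have ev4 : ∀ᶠ s in 𝓝[<] (π / 2), s < π / 2 := self_mem_nhdsWithin
  obtain ⟨s, ⟨⟨hsq, hsr⟩, hs_gt⟩, hs_lt⟩ := ((ev1.and ev2).and ev3 |>.and ev4).exists
  have hs0 : 0 < s := lt_of_le_of_lt hs1 hs_gt
  have hsin : 0 < sin s := Real.sin_pos_of_pos_of_lt_pi hs0 (by linarith)
  have hcos : 0 < cos s := Real.cos_pos_of_mem_Ioo ⟨by linarith, hs_lt⟩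
  refine ⟨fun ψ => (h (ψ + s) - h (ψ - s)) / (2 * sin s), R / (2 * cos s) + R / sin s, 1 / 2,
    by norm_num, ?_, hsq, ?_⟩
  · have : Continuous (fun ψ => (h (ψ + s) - h (ψ - s)) / (2 * sin s)) := by fun_prop
    exact this.continuousAt
  intro φ ψ hφ hψ
  have hx1 : |φ - ψ| ≤ 1 := by
    rw [abs_lt] at hφ hψ
    rw [abs_le]
    constructor <;> linarith [hφ.1, hφ.2, hψ.1, hψ.2]
  obtain ⟨g, c, hg0, hg1, hg2, hg3, hg4⟩ := lev s hs_gt hs_lt ψ
  have h4 := hg4 φ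
  set q := (h (ψ + s) - h (ψ - s)) / (2 * sin s) with hq
  set x := φ - ψ with hx
  -- bounds
  have hgψ_up : g ψ ≤ R / cos s := by
    rw [hg3, div_le_div_iff₀ (by positivity) hcos]
    nlinarith [hup (ψ + s), hup (ψ - s)]
  have hgψ_low : r / cos s ≤ g ψ := by
    rw [hg3, div_le_div_iff₀ hcos (by positivity)]
    nlinarith [hlow (ψ + s), hlow (ψ - s)]
  have hqb : |q| ≤ R / sin s := by
    rw [hq, abs_div, abs_of_pos (by positivity : (0:ℝ) < 2 * sin s), div_le_div_iff₀ (by positivity) hsin]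
    have : |h (ψ + s) - h (ψ - s)| ≤ 2 * R := by
      rw [abs_le]
      constructor <;> nlinarith [hup (ψ + s), hup (ψ - s), hlow (ψ + s), hlow (ψ - s)]
    nlinarith
  set E : ℝ → ℝ := fun φ => (g φ + g (φ + π)) / 2 with hE
  have hEpos : ∀ φ, 0 < E φ := fun φ => by
    have := hg0 φ; have := hg0 (φ + π)
    simp only [hE]; linarith
  have hED : ∀ φ, g φ = E φ + DD h φ := fun φ => by
    have := hg1 φ
    simp only [hE, DD]; linarith
  have hEψ : 2 * R * Lc / ε ≤ E ψ := by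
    have h1 : |DD h ψ| ≤ R := by
      simp only [DD]
      rw [abs_le]
      constructor <;> linarith [hup ψ, hup (ψ + π), hlow ψ, hlow (ψ + π)]
    have h2 : R + 2 * R * Lc / ε ≤ r / cos s := by
      rw [le_div_iff₀ hcos]; linarith
    have h3 := hED ψ
    have h4 := (abs_le.1 h1).2
    linarith
  have hEdiff : |E φ - E ψ| ≤ ε * |x| := by
    have h1 : (E φ - E ψ) * (E φ + E ψ) = HH h φ ^ 2 - HH h ψ ^ 2 := by
      have a := hg2 φ; have b := hg2 ψ
      simp only [hE, HH] at *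
      linarith
    have h2 : |HH h φ ^ 2 - HH h ψ ^ 2| ≤ 2 * R * Lc * |x| := by
      have e : HH h φ ^ 2 - HH h ψ ^ 2 = (HH h φ - HH h ψ) * (HH h φ + HH h ψ) := by ring
      rw [e, abs_mul]
      have a1 : |HH h φ - HH h ψ| ≤ Lc * |x| := by
        have b1 := hL φ ψ
        have b2 := hL (φ + π) (ψ + π)
        rw [show φ + π - (ψ + π) = x by rw [hx]; ring] at b2
        simp only [HH]
        rw [abs_le] at *
        constructor <;> linarith [b1.1, b1.2, b2.1, b2.2]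
      have a2 : |HH h φ + HH h ψ| ≤ 2 * R := by
        simp only [HH]
        rw [abs_le]
        constructor <;> linarith [hup ψ, hup (ψ + π), hlow ψ, hlow (ψ + π), hup φ, hup (φ + π), hlow φ, hlow (φ + π)]
      calc |HH h φ - HH h ψ| * |HH h φ + HH h ψ| ≤ (Lc * |x|) * (2 * R) :=
            mul_le_mul a1 a2 (abs_nonneg _) (by positivity)
        _ = _ := by ring
    have h3 : |E φ - E ψ| * (E φ + E ψ) ≤ 2 * R * Lc * |x| := by
      rw [← abs_of_pos (show 0 < E φ + E ψ by linarith [hEpos φ, hEpos ψ]), ← abs_mul, h1]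
      exact h2
    have h4 : 2 * R * Lc ≤ ε * E ψ := by
      rw [div_le_iff₀ hε] at hEψ; linarith
    have h5 : |E φ - E ψ| * (E φ + E ψ) ≤ (ε * |x|) * (E φ + E ψ) := by
      refine h3.trans ?_
      have h6 : 2 * R * Lc * |x| ≤ ε * E ψ * |x| := mul_le_mul_of_nonneg_right h4 (abs_nonneg _)
      have h7 : 0 ≤ ε * |x| * E φ := mul_nonneg (mul_nonneg hε.le (abs_nonneg _)) (hEpos φ).le
      nlinarith
    exact le_of_mul_le_mul_right h5 (by linarith [hEpos φ, hEpos ψ])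
  have hsx := sin_sub_le hx1
  have hcx := Real.one_sub_sq_div_two_le_cos (x := x)
  have k1 : (x ^ 2 / 2) * (R / cos s) ≥ (1 - cos x) * g ψ := by
    have a1 : 0 ≤ 1 - cos x := by linarith [Real.cos_le_one x]
    calc (1 - cos x) * g ψ ≤ (1 - cos x) * (R / cos s) := mul_le_mul_of_nonneg_left hgψ_up a1
      _ ≤ (x ^ 2 / 2) * (R / cos s) := mul_le_mul_of_nonneg_right (by linarith) (by positivity)
  have k2 : |(sin x - x) * q| ≤ x ^ 2 * (R / sin s) := by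
    rw [abs_mul]
    exact mul_le_mul hsx hqb (abs_nonneg _) (by positivity)
  have k3 : (x ^ 2 / 2) * (R / cos s) = (R / (2 * cos s)) * x ^ 2 := by field_simp
  have h5 := hED φ
  have h6 := hED ψ
  have k4 := (abs_le.1 k2).1
  have k5 := (abs_le.1 hEdiff).2
  have k6 : x * q - x ^ 2 * (R / sin s) ≤ sin x * q := by linarith
  show DD h ψ + x * q - ε * |x| - (R / (2 * cos s) + R / sin s) * x ^ 2 ≤ DD h φ
  nlinarith

end main

end Pool.Agent.K9h61.StrEnd
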