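import Pool.Agent.K9h61.StrEnd

set_option autoImplicit false
open Real Set Filter Topology

namespace Pool.Agent.K9h61.StrEnd

theorem const_of_deriv {f : ℝ → ℝ} (hf : ∀ x, HasDerivAt f 0 x) (x : ℝ) : f x = f 0 :=
  is_const_of_deriv_eq_zero (fun x => (hf x).differentiableAt) (fun x => (hf x).deriv) x 0

/-- `f' = g`, `g' = -ω² f` -/
theorem harmonic {f g : ℝ → ℝ} {ω : ℝ} (hω : ω ≠ 0) (hf : ∀ x, HasDerivAt f (g x) x)
    (hg : ∀ x, HasDerivAt g (-ω ^ 2 * f x) x) :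
    ∀ x, f x = f 0 * cos (ω * x) + (g 0 / ω) * sin (ω * x) := by
  have hc : ∀ x, HasDerivAt (fun x => cos (ω * x)) (-sin (ω * x) * ω) x := fun x => by
    have h1 : HasDerivAt (fun x => ω * x) ω x := by simpa using (hasDerivAt_id x).const_mul ω
    exact h1.cos
  have hs : ∀ x, HasDerivAt (fun x => sin (ω * x)) (cos (ω * x) * ω) x := fun x => by
    have h1 : HasDerivAt (fun x => ω * x) ω x := by simpa using (hasDerivAt_id x).const_mul ω
    exact h1.sin
  have hu : ∀ x, HasDerivAt (fun x => f x * cos (ω * x) - (g x / ω) * sin (ω * x)) 0 x := by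
    intro x
    have := ((hf x).mul (hc x)).sub (((hg x).div_const ω).mul (hs x))
    refine this.congr_deriv ?_
    field_simp
    ring
  have hw : ∀ x, HasDerivAt (fun x => f x * sin (ω * x) + (g x / ω) * cos (ω * x)) 0 x := by
    intro x
    have := ((hf x).mul (hs x)).add (((hg x).div_const ω).mul (hc x))
    refine this.congr_deriv ?_
    field_simp
    ring
  intro x
  have h1 := const_of_deriv hu x
  have h2 := const_of_deriv hw x
  simp only [mul_zero, Real.cos_zero, Real.sin_zero, mul_one, sub_zero, zero_add] at h1 h2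
  have h3 := Real.sin_sq_add_cos_sq (ω * x)
  linear_combination (cos (ω * x)) * h1 + (sin (ω * x)) * h2 - f x * h3

variable {h : ℝ → ℝ} {r R Lc s1 : ℝ}

theorem DD_eq (hc : Continuous h) (hper : ∀ θ, h (θ + 2 * π) = h θ) (hr : 0 < r)
    (hlow : ∀ θ, r ≤ h θ) (hup : ∀ θ, h θ ≤ R) (hL0 : 0 ≤ Lc)
    (hL : ∀ a b, |h a - h b| ≤ Lc * |a - b|) (hs1 : 0 ≤ s1) (hs1' : s1 < π / 2)
    (lev : Lev h s1) : ∃ u w : ℝ, ∀ θ, DD h θ = u * cos θ + w * sin θ := by
  have hD := DD_deriv hc hper hr hlow hup hL0 hL hs1 hs1' lev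
  have hpi : ∀ θ, DD h (θ + π) = - DD h θ := by
    intro θ
    simp only [DD]
    rw [show θ + π + π = θ + 2 * π by ring, hper]; ring
  have hD2 : ∀ θ, HasDerivAt (fun θ => DD h (θ + π / 2)) (-1 ^ 2 * DD h θ) θ := by
    intro θ
    have h1 := (hD (θ + π / 2)).comp_add_const θ (π / 2)
    rw [show θ + π / 2 + π / 2 = θ + π by ring, hpi] at h1
    refine h1.congr_deriv ?_
    ring
  refine ⟨DD h 0, DD h (0 + π / 2) / 1, fun θ => ?_⟩
  have := harmonic one_ne_zero hD hD2 θ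
  rw [this]; simp only [one_mul]

noncomputable def Lam (G : ℝ → ℝ) (s θ : ℝ) : ℝ := (G (θ + s) - G (θ - s)) / sin (2 * s)

theorem G_deriv (hc : Continuous h) (hr : 0 < r)
    (hlow : ∀ θ, r ≤ h θ) (hup : ∀ θ, h θ ≤ R) (hs1 : 0 ≤ s1)
    (lev : Lev h s1) {u w : ℝ} (hD : ∀ θ, DD h θ = u * cos θ + w * sin θ) {s : ℝ}
    (hs_gt : s1 < s) (hs_lt : s < π / 2) (θ : ℝ) :
    HasDerivAt (fun θ => HH h θ ^ 2) (Lam (fun θ => HH h θ ^ 2) s θ) θ := by
  have hpi := Real.pi_pos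
  have hR : 0 < R := hr.trans_le ((hlow 0).trans (hup 0))
  have hs0 : 0 < s := lt_of_le_of_lt hs1 hs_gt
  have hsin : 0 < sin s := Real.sin_pos_of_pos_of_lt_pi hs0 (by linarith)
  have hcos : 0 < cos s := Real.cos_pos_of_mem_Ioo ⟨by linarith, hs_lt⟩
  have hs2 : sin (2 * s) = 2 * sin s * cos s := Real.sin_two_mul s
  have hs2p : 0 < sin (2 * s) := by rw [hs2]; positivity
  have hHlow : ∀ θ, r ≤ HH h θ := fun θ => by
    simp only [HH]; linarith [hlow θ, hlow (θ + π)]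
  have hHup : ∀ θ, HH h θ ≤ R := fun θ => by
    simp only [HH]; linarith [hup θ, hup (θ + π)]
  have hHc : Continuous (HH h) := by unfold HH; fun_prop
  apply deriv_of_lower
  intro ε hε
  refine ⟨fun ψ => Lam (fun θ => HH h θ ^ 2) s ψ, 2 * (R ^ 2 / sin (2 * s)) + (R / cos s) ^ 2,
    min s (1 / 2) / 2, by positivity, ?_, by simpa using hε.le, ?_⟩
  · have : Continuous (fun ψ => Lam (fun θ => HH h θ ^ 2) s ψ) := by unfold Lam; fun_prop
    exact this.continuousAt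
  intro φ ψ hφ hψ
  have hx' : |φ - ψ| ≤ min s (1 / 2) := by
    rw [abs_lt] at hφ hψ
    rw [abs_le]
    constructor <;> linarith [hφ.1, hφ.2, hψ.1, hψ.2]
  have hxs : |φ - ψ| ≤ s := hx'.trans (min_le_left _ _)
  have hx1 : |φ - ψ| ≤ 1 / 2 := hx'.trans (min_le_right _ _)
  obtain ⟨g, c, hg0, hg1, hg2, hg3, hg4⟩ := lev s hs_gt hs_lt ψ
  have h4 := hg4 φ
  set x := φ - ψ with hx
  have hφx : φ = ψ + x := by rw [hx]; ring
  clear_value x
  set E : ℝ → ℝ := fun φ => (g φ + g (φ + π)) / 2 with hE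
  have hEpos : ∀ φ, 0 < E φ := fun φ => by
    have := hg0 φ; have := hg0 (φ + π)
    simp only [hE]; linarith
  have hED : ∀ φ, g φ = E φ + DD h φ := fun φ => by
    have := hg1 φ
    simp only [hE, DD]; linarith
  have hhHD : ∀ φ, h φ = HH h φ + DD h φ := fun φ => by simp only [HH, DD]; ring
  have hEψ : E ψ = (HH h (ψ + s) + HH h (ψ - s)) / (2 * cos s) := by
    have h1 := hED ψ
    have h2 : E ψ = g ψ - DD h ψ := by linarith
    rw [h2, hg3, hhHD (ψ + s), hhHD (ψ - s), hD, hD, hD, Real.cos_add, Real.cos_sub, Real.sin_add,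
      Real.sin_sub]
    field_simp
    ring
  set Q := (HH h (ψ + s) - HH h (ψ - s)) / (2 * sin s) with hQ
  have hqQ : (h (ψ + s) - h (ψ - s)) / (2 * sin s) = Q + (-u * sin ψ + w * cos ψ) := by
    rw [hQ, hhHD (ψ + s), hhHD (ψ - s), hD, hD, Real.cos_add, Real.cos_sub, Real.sin_add,
      Real.sin_sub]
    field_simp
    ring
  have hEφ : cos x * E ψ + sin x * Q ≤ E φ := by
    rw [hqQ, hED ψ, hED φ, hD φ, hD ψ] at h4
    have h5 : cos φ = cos ψ * cos x - sin ψ * sin x := by rw [hφx, Real.cos_add]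
    have h6 : sin φ = sin ψ * cos x + cos ψ * sin x := by rw [hφx, Real.sin_add]
    rw [h5, h6] at h4
    nlinarith
  have hnn : 0 ≤ cos x * E ψ + sin x * Q := by
    have e : cos x * E ψ + sin x * Q
        = (HH h (ψ + s) * sin (s + x) + HH h (ψ - s) * sin (s - x)) / (2 * sin s * cos s) := by
      rw [hEψ, hQ, Real.sin_add, Real.sin_sub]
      field_simp
      ring
    rw [e]
    rw [abs_le] at hxs
    have a1 : 0 ≤ sin (s + x) := Real.sin_nonneg_of_nonneg_of_le_pi (by linarith) (by linarith)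
    have a2 : 0 ≤ sin (s - x) := Real.sin_nonneg_of_nonneg_of_le_pi (by linarith) (by linarith)
    have a3 := hr.le.trans (hHlow (ψ + s))
    have a4 := hr.le.trans (hHlow (ψ - s))
    positivity
  have hsq : (cos x * E ψ + sin x * Q) ^ 2 ≤ E φ ^ 2 := pow_le_pow_left₀ hnn hEφ 2
  have hEQ : 2 * E ψ * Q = Lam (fun θ => HH h θ ^ 2) s ψ := by
    rw [hEψ, hQ]
    simp only [Lam]
    rw [hs2]
    field_simp
    ring
  have hGE : E φ ^ 2 - E ψ ^ 2 = HH h φ ^ 2 - HH h ψ ^ 2 := by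
    have a := hg2 φ; have b := hg2 ψ
    simp only [hE, HH] at *
    linarith
  have hEup : E ψ ≤ R / cos s := by
    rw [hEψ, div_le_div_iff₀ (by positivity) hcos]
    nlinarith [hHup (ψ + s), hHup (ψ - s)]
  have hLamb : |Lam (fun θ => HH h θ ^ 2) s ψ| ≤ R ^ 2 / sin (2 * s) := by
    simp only [Lam]
    rw [abs_div, abs_of_pos hs2p]
    apply div_le_div_of_nonneg_right _ hs2p.le
    have a1 : 0 ≤ HH h (ψ + s) ^ 2 := sq_nonneg _
    have a2 : 0 ≤ HH h (ψ - s) ^ 2 := sq_nonneg _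
    have a3 : HH h (ψ + s) ^ 2 ≤ R ^ 2 := pow_le_pow_left₀ (hr.le.trans (hHlow _)) (hHup _) 2
    have a4 : HH h (ψ - s) ^ 2 ≤ R ^ 2 := pow_le_pow_left₀ (hr.le.trans (hHlow _)) (hHup _) 2
    rw [abs_le]
    constructor <;> linarith
  set Λ := Lam (fun θ => HH h θ ^ 2) s ψ with hΛ
  have hx2 : |2 * x| ≤ 1 := by rw [abs_mul, abs_two]; linarith
  have hsx := sin_sub_le hx2
  have hsc : sin x * cos x = sin (2 * x) / 2 := by rw [Real.sin_two_mul]; ring
  have k1 : |(sin x * cos x - x) * Λ| ≤ (2 * x ^ 2) * (R ^ 2 / sin (2 * s)) := by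
    rw [abs_mul]
    apply mul_le_mul _ hLamb (abs_nonneg _) (by positivity)
    rw [hsc]
    have : sin (2 * x) / 2 - x = (sin (2 * x) - 2 * x) / 2 := by ring
    rw [this, abs_div, abs_two]
    have e : (2 * x) ^ 2 = 4 * x ^ 2 := by ring
    rw [e] at hsx
    linarith
  have k2 : sin x ^ 2 ≤ x ^ 2 := by
    rw [← sq_abs (sin x), ← sq_abs x]
    exact pow_le_pow_left₀ (abs_nonneg _) Real.abs_sin_le_abs 2
  have k3 : E ψ ^ 2 ≤ (R / cos s) ^ 2 := pow_le_pow_left₀ (hEpos ψ).le hEup 2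
  have k4 : sin x ^ 2 * E ψ ^ 2 ≤ x ^ 2 * (R / cos s) ^ 2 :=
    mul_le_mul k2 k3 (sq_nonneg _) (sq_nonneg _)
  have k5 : (cos x * E ψ + sin x * Q) ^ 2 = E ψ ^ 2 - sin x ^ 2 * E ψ ^ 2 + sin x * cos x * Λ
      + sin x ^ 2 * Q ^ 2 := by
    rw [← hEQ]
    have := Real.sin_sq_add_cos_sq x
    have hcc : cos x ^ 2 = 1 - sin x ^ 2 := by linarith
    ring_nf
    rw [hcc]; ring
  have k6 : 0 ≤ sin x ^ 2 * Q ^ 2 := by positivity
  have k7 := (abs_le.1 k1).1
  have k8 : 0 ≤ ε * |x| := by positivity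
  show HH h ψ ^ 2 + x * Λ - ε * |x| - (2 * (R ^ 2 / sin (2 * s)) + (R / cos s) ^ 2) * x ^ 2
    ≤ HH h φ ^ 2
  nlinarith

end Pool.Agent.K9h61.StrEnd
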