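import Pool.Agent.K9h61.StrEnd2

set_option autoImplicit false
open Real Set Filter Topology

namespace Pool.Agent.K9h61.StrEnd

/-- a `π`-periodic function with `G' = Λ_s` for all `s` near `π/2` is `m + A cos 2θ + B sin 2θ` -/
theorem G_eq {G : ℝ → ℝ} {s1 : ℝ} (hs1 : 0 ≤ s1) (hs1' : s1 < π / 2)
    (hper : ∀ θ, G (θ + π) = G θ)
    (hG : ∀ s, s1 < s → s < π / 2 → ∀ θ, HasDerivAt G (Lam G s θ) θ) :
    ∃ m A B : ℝ, ∀ θ, G θ = m + A * cos (2 * θ) + B * sin (2 * θ) := by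
  have hpi := Real.pi_pos
  set F : ℝ → ℝ := deriv G with hF
  have hFs : ∀ s, s1 < s → s < π / 2 → ∀ θ, F θ = Lam G s θ := fun s h1 h2 θ => (hG s h1 h2 θ).deriv
  set s0 := (s1 + π / 2) / 2 with hs0
  have hs0a : s1 < s0 := by rw [hs0]; linarith
  have hs0b : s0 < π / 2 := by rw [hs0]; linarith
  have hGd : ∀ θ, HasDerivAt G (F θ) θ := fun θ => by
    rw [hFs s0 hs0a hs0b]; exact hG s0 hs0a hs0b θ
  set t0 := π / 2 - s1 with ht0
  have ht0p : 0 < t0 := by rw [ht0]; linarith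
  -- symmetric difference for small positive t
  have e1 : ∀ t, 0 < t → t < t0 → ∀ ψ, G (ψ + t) - G (ψ - t) = - sin (2 * t) * F (ψ + π / 2) := by
    intro t h1 h2 ψ
    have h3 := hFs (π / 2 - t) (by linarith) (by linarith) (ψ + π / 2)
    have h4 : 0 < sin (2 * t) := Real.sin_pos_of_pos_of_lt_pi (by linarith) (by linarith)
    rw [h3, Lam, show ψ + π / 2 + (π / 2 - t) = (ψ - t) + π by ring, hper,
      show ψ + π / 2 - (π / 2 - t) = ψ + t by ring,
      show 2 * (π / 2 - t) = π - 2 * t by ring, Real.sin_pi_sub]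
    have h5 : sin (2 * t) ≠ 0 := h4.ne'
    rw [neg_mul, mul_div_cancel₀ _ h5]
    ring
  have e2 : ∀ t, |t| < t0 → ∀ ψ, G (ψ + t) - G (ψ - t) = - sin (2 * t) * F (ψ + π / 2) := by
    intro t ht ψ
    rcases lt_trichotomy t 0 with h | h | h
    · have := e1 (-t) (by linarith) (by rwa [abs_of_neg h] at ht) ψ
      rw [show 2 * -t = -(2 * t) by ring, Real.sin_neg, show ψ + -t = ψ - t by ring,
        show ψ - -t = ψ + t by ring] at this
      linarith
    · subst h; simp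
    · exact e1 t h (by rwa [abs_of_pos h] at ht) ψ
  have hadd : ∀ (G F : ℝ → ℝ), (∀ θ, HasDerivAt G (F θ) θ) → ∀ ψ t,
      HasDerivAt (fun t => G (ψ + t) - G (ψ - t)) (F (ψ + t) + F (ψ - t)) t := by
    intro G F hGF ψ t
    have h1 : HasDerivAt (fun t => G (ψ + t)) (F (ψ + t)) t := (hGF (ψ + t)).comp_const_add ψ t
    have h2 : HasDerivAt (fun t => G (ψ - t)) (-F (ψ - t)) t := (hGF (ψ - t)).comp_const_sub ψ t
    refine (h1.sub h2).congr_deriv ?_
    ring
  have hsin2 : ∀ t, HasDerivAt (fun t => sin (2 * t)) (2 * cos (2 * t)) t := by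
    intro t
    have h1 : HasDerivAt (fun x : ℝ => 2 * x) 2 t := by simpa using (hasDerivAt_id t).const_mul (2:ℝ)
    refine h1.sin.congr_deriv ?_
    ring
  have hcos2 : ∀ t, HasDerivAt (fun t => cos (2 * t)) (-2 * sin (2 * t)) t := by
    intro t
    have h1 : HasDerivAt (fun x : ℝ => 2 * x) 2 t := by simpa using (hasDerivAt_id t).const_mul (2:ℝ)
    refine h1.cos.congr_deriv ?_
    ring
  have hnear : ∀ t, |t| < t0 → ∀ᶠ u in 𝓝 t, |u| < t0 := by
    intro t ht
    exact (continuous_abs.continuousAt (x := t)).eventually_lt continuousAt_const ht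
  have e3 : ∀ ψ, F (ψ + π / 2) = - F ψ := by
    intro ψ
    have h1 := hadd G F hGd ψ 0
    have h2 : HasDerivAt (fun t => - sin (2 * t) * F (ψ + π / 2))
        (-(2 * cos (2 * 0)) * F (ψ + π / 2)) 0 := ((hsin2 0).neg).mul_const _
    have h3 : (fun t => G (ψ + t) - G (ψ - t)) =ᶠ[𝓝 0] (fun t => - sin (2 * t) * F (ψ + π / 2)) := by
      filter_upwards [hnear 0 (by simpa using ht0p)] with t ht
      exact e2 t ht ψ
    have h4 := h1.unique (h2.congr_of_eventuallyEq h3)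
    simp at h4
    linarith
  have e4 : ∀ t, |t| < t0 → ∀ ψ, G (ψ + t) - G (ψ - t) = sin (2 * t) * F ψ := by
    intro t ht ψ
    rw [e2 t ht ψ, e3 ψ]; ring
  -- F is differentiable
  have hFd : ∀ θ, HasDerivAt F ((F (θ + s0) - F (θ - s0)) / sin (2 * s0)) θ := by
    intro θ
    have h0 : F = fun θ => (G (θ + s0) - G (θ - s0)) / sin (2 * s0) := by
      funext θ; exact hFs s0 hs0a hs0b θ
    have h1 : HasDerivAt (fun θ => G (θ + s0)) (F (θ + s0)) θ := (hGd (θ + s0)).comp_add_const θ s0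
    have h2 : HasDerivAt (fun θ => G (θ - s0)) (F (θ - s0)) θ := (hGd (θ - s0)).comp_sub_const θ s0
    have h3 := (h1.sub h2).div_const (sin (2 * s0))
    rw [h0] at h3 ⊢
    exact h3
  set F1 : ℝ → ℝ := deriv F with hF1
  have hFd1 : ∀ θ, HasDerivAt F (F1 θ) θ := fun θ => by
    have := hFd θ
    rw [hF1, this.deriv]; exact this
  have e5 : ∀ t, |t| < t0 → ∀ ψ, F (ψ + t) - F (ψ - t) = sin (2 * t) * F1 ψ := by
    intro t ht ψ
    have h1 : HasDerivAt (fun ψ => G (ψ + t)) (F (ψ + t)) ψ := (hGd (ψ + t)).comp_add_const ψ t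
    have h2 : HasDerivAt (fun ψ => G (ψ - t)) (F (ψ - t)) ψ := (hGd (ψ - t)).comp_sub_const ψ t
    have h3 := h1.sub h2
    have h4 : HasDerivAt (fun ψ => sin (2 * t) * F ψ) (sin (2 * t) * F1 ψ) ψ :=
      (hFd1 ψ).const_mul _
    have h5 : (fun ψ => G (ψ + t)) - (fun ψ => G (ψ - t)) = (fun ψ => sin (2 * t) * F ψ) := by
      funext ψ; exact e4 t ht ψ
    rw [h5] at h3
    exact h3.unique h4
  have e6 : ∀ t, |t| < t0 → ∀ ψ, F (ψ + t) + F (ψ - t) = 2 * cos (2 * t) * F ψ := by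
    intro t ht ψ
    have h1 := hadd G F hGd ψ t
    have h2 : HasDerivAt (fun t => sin (2 * t) * F ψ) (2 * cos (2 * t) * F ψ) t :=
      (hsin2 t).mul_const _
    have h3 : (fun t => G (ψ + t) - G (ψ - t)) =ᶠ[𝓝 t] (fun t => sin (2 * t) * F ψ) := by
      filter_upwards [hnear t ht] with t ht
      exact e4 t ht ψ
    exact h1.unique (h2.congr_of_eventuallyEq h3)
  have e7 : ∀ t, |t| < t0 → ∀ ψ, F (ψ + t) = cos (2 * t) * F ψ + sin (2 * t) * (F1 ψ / 2) := by
    intro t ht ψ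
    have h1 := e5 t ht ψ
    have h2 := e6 t ht ψ
    linarith
  have e8 : ∀ t, |t| < t0 → ∀ ψ, F1 (ψ + t) = -2 * sin (2 * t) * F ψ + cos (2 * t) * F1 ψ := by
    intro t ht ψ
    have h1 : HasDerivAt (fun t => F (ψ + t)) (F1 (ψ + t)) t := (hFd1 (ψ + t)).comp_const_add ψ t
    have h2 : HasDerivAt (fun t => cos (2 * t) * F ψ + sin (2 * t) * (F1 ψ / 2))
        (-2 * sin (2 * t) * F ψ + 2 * cos (2 * t) * (F1 ψ / 2)) t :=
      ((hcos2 t).mul_const _).add ((hsin2 t).mul_const _)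
    have h3 : (fun t => F (ψ + t)) =ᶠ[𝓝 t]
        (fun t => cos (2 * t) * F ψ + sin (2 * t) * (F1 ψ / 2)) := by
      filter_upwards [hnear t ht] with t ht
      exact e7 t ht ψ
    rw [h1.unique (h2.congr_of_eventuallyEq h3)]
    ring
  have e9 : ∀ ψ, HasDerivAt F1 (-2 ^ 2 * F ψ) ψ := by
    intro ψ
    have h1 : HasDerivAt (fun t => -2 * sin (2 * t) * F ψ + cos (2 * t) * F1 ψ)
        (-2 * (2 * cos (2 * 0)) * F ψ + (-2 * sin (2 * 0)) * F1 ψ) 0 :=
      (((hsin2 0).const_mul _).mul_const _).add ((hcos2 0).mul_const _)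
    have h2 : (fun t => F1 (ψ + t)) =ᶠ[𝓝 0]
        (fun t => -2 * sin (2 * t) * F ψ + cos (2 * t) * F1 ψ) := by
      filter_upwards [hnear 0 (by simpa using ht0p)] with t ht
      exact e8 t ht ψ
    have h3 := h1.congr_of_eventuallyEq h2
    have h4 : HasDerivAt (fun x => (fun t => F1 (ψ + t)) (x - ψ))
        (-2 * (2 * cos (2 * 0)) * F ψ + (-2 * sin (2 * 0)) * F1 ψ) ψ := by
      rw [show (0:ℝ) = ψ - ψ by ring] at h3
      have := h3.comp_sub_const ψ ψ
      simpa using this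
    have h5 : (fun x => (fun t => F1 (ψ + t)) (x - ψ)) = F1 := by
      funext x; simp
    rw [h5] at h4
    refine h4.congr_deriv ?_
    rw [mul_zero, Real.cos_zero, Real.sin_zero]
    ring
  have e10 := harmonic (two_ne_zero) hFd1 e9
  have e11 : ∀ x, HasDerivAt (fun θ => G θ - (F 0 / 2) * sin (2 * θ) + (F1 0 / 2 / 2) * cos (2 * θ))
      0 x := by
    intro x
    refine (((hGd x).sub ((hsin2 x).const_mul _)).add ((hcos2 x).const_mul _)).congr_deriv ?_
    rw [e10 x]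
    ring
  refine ⟨G 0 + (F1 0 / 2 / 2), -(F1 0 / 2 / 2), F 0 / 2, fun θ => ?_⟩
  have := const_of_deriv e11 θ
  simp at this
  linarith

end Pool.Agent.K9h61.StrEnd
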