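import Pool.Agent.K9h61.StrEnd3

set_option autoImplicit false
open Real Set Filter Topology MeasureTheory
open Pool.Agent.R763.Str

namespace Pool.Agent.K9h61.StrEnd

/-- the linear map with matrix `[[p,0],[q,t]]` -/
noncomputable def TT (p q t : ℝ) (hp : p ≠ 0) (ht : t ≠ 0) : E2 ≃ₗ[ℝ] E2 where
  toFun x := !₂[p * x 0, q * x 0 + t * x 1]
  invFun x := !₂[x 0 / p, (x 1 - q * (x 0 / p)) / t]
  map_add' x y := by
    ext i; fin_cases i
    · simp; ring
    · simp; ring
  map_smul' c x := by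
    ext i; fin_cases i
    · simp; ring
    · simp; ring
  left_inv x := by
    ext i; fin_cases i
    · simp [hp]
    · simp [hp, ht]
  right_inv x := by
    ext i; fin_cases i
    · simp; field_simp
    · simp; field_simp; ring

theorem TT_0 (p q t : ℝ) (hp : p ≠ 0) (ht : t ≠ 0) (x : E2) : (TT p q t hp ht x) 0 = p * x 0 := by
  simp [TT]

theorem TT_1 (p q t : ℝ) (hp : p ≠ 0) (ht : t ≠ 0) (x : E2) :
    (TT p q t hp ht x) 1 = q * x 0 + t * x 1 := by
  simp [TT]

theorem mem_ball_iff {p q t : ℝ} (hp : p ≠ 0) (ht : t ≠ 0) (y : E2) :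
    ‖y‖ ≤ 1 ↔ ∀ θ, pr (TT p q t hp ht y) θ ≤ √((p * cos θ + q * sin θ) ^ 2 + (t * sin θ) ^ 2) := by
  have hpr : ∀ θ, pr (TT p q t hp ht y) θ = y 0 * (p * cos θ + q * sin θ) + y 1 * (t * sin θ) := by
    intro θ
    unfold pr
    rw [TT_0, TT_1]; ring
  constructor
  · intro hy θ
    rw [hpr]
    apply Real.le_sqrt_of_sq_le
    have h1 : y 0 ^ 2 + y 1 ^ 2 ≤ 1 := by
      rw [← norm_sq_eq]
      have := norm_nonneg y
      nlinarith
    set a := p * cos θ + q * sin θ
    set b := t * sin θ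
    have h2 : 0 ≤ (1 - (y 0 ^ 2 + y 1 ^ 2)) * (a ^ 2 + b ^ 2) :=
      mul_nonneg (by linarith) (by positivity)
    nlinarith [sq_nonneg (y 0 * b - y 1 * a)]
  · intro H
    -- choose θ with e_θ parallel to T^{-T} y
    set z1 := y 1 / t with hz1
    set z0 := (y 0 - q * z1) / p with hz0
    obtain ⟨θ, h0, h1⟩ := exists_polar z0 z1
    set N := √(z0 ^ 2 + z1 ^ 2) with hN
    have hNn : 0 ≤ N := Real.sqrt_nonneg _
    have k1 : N * (p * cos θ + q * sin θ) = y 0 := by
      have : N * (p * cos θ + q * sin θ) = p * (N * cos θ) + q * (N * sin θ) := by ring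
      rw [this, ← h0, ← h1, hz0]
      field_simp
      ring
    have k2 : N * (t * sin θ) = y 1 := by
      have : N * (t * sin θ) = t * (N * sin θ) := by ring
      rw [this, ← h1, hz1]
      field_simp
    have H1 := H θ
    rw [hpr] at H1
    have H2 := mul_le_mul_of_nonneg_left H1 hNn
    have e1 : N * (y 0 * (p * cos θ + q * sin θ) + y 1 * (t * sin θ)) = ‖y‖ ^ 2 := by
      rw [norm_sq_eq]
      have : N * (y 0 * (p * cos θ + q * sin θ) + y 1 * (t * sin θ))
        = y 0 * (N * (p * cos θ + q * sin θ)) + y 1 * (N * (t * sin θ)) := by ring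
      rw [this, k1, k2]; ring
    have e2 : N * √((p * cos θ + q * sin θ) ^ 2 + (t * sin θ) ^ 2) = ‖y‖ := by
      have : N * √((p * cos θ + q * sin θ) ^ 2 + (t * sin θ) ^ 2)
          = √(N ^ 2 * ((p * cos θ + q * sin θ) ^ 2 + (t * sin θ) ^ 2)) := by
        rw [Real.sqrt_mul (sq_nonneg _), Real.sqrt_sq hNn]
      rw [this]
      have : N ^ 2 * ((p * cos θ + q * sin θ) ^ 2 + (t * sin θ) ^ 2) = ‖y‖ ^ 2 := by
        rw [norm_sq_eq, ← k1, ← k2]; ring
      rw [this, Real.sqrt_sq (norm_nonneg _)]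
    rw [e1, e2] at H2
    by_contra hcon
    push Not at hcon
    nlinarith

/-- A convex body with support function `√(m + A cos 2θ + B sin 2θ) + pr v θ` is an ellipse. -/
theorem ellipse {K : Set E2} (hK : IsCompact K) (hc : Convex ℝ K) (hne : K.Nonempty) {m A B : ℝ}
    {v : E2} (hpos : ∀ θ, 0 < m + A * cos (2 * θ) + B * sin (2 * θ))
    (hh : ∀ θ, hs K θ = √(m + A * cos (2 * θ) + B * sin (2 * θ)) + pr v θ) :
    ∃ f : E2 ≃ᵃ[ℝ] E2, K = f '' Metric.closedBall 0 1 := by
  -- positivity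
  have hAB : A ^ 2 + B ^ 2 < m ^ 2 ∧ 0 < m + A := by
    have h0 := hpos 0
    simp at h0
    refine ⟨?_, by linarith⟩
    obtain ⟨θ, h1, h2⟩ := exists_polar A B
    have h3 := hpos ((θ + π) / 2)
    have h4 := hpos (θ / 2)
    rw [show 2 * ((θ + π) / 2) = θ + π by ring, Real.cos_add_pi, Real.sin_add_pi] at h3
    rw [show 2 * (θ / 2) = θ by ring] at h4
    set N := √(A ^ 2 + B ^ 2) with hN
    have hNn : 0 ≤ N := Real.sqrt_nonneg _
    have hsc := Real.sin_sq_add_cos_sq θ
    have e : A * cos θ + B * sin θ = N := by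
      rw [h1, h2]
      linear_combination N * hsc
    have hN2 : N ^ 2 = A ^ 2 + B ^ 2 := Real.sq_sqrt (by positivity)
    have h5 : N < m := by nlinarith
    nlinarith
  obtain ⟨hAB, ha⟩ := hAB
  set a := m + A with ha'
  set d := m - A with hd'
  have hdet : 0 < a * d - B ^ 2 := by rw [ha', hd']; nlinarith
  set p := √a with hp'
  have hp : 0 < p := Real.sqrt_pos.2 ha
  have hp2 : p ^ 2 = a := Real.sq_sqrt ha.le
  set q := B / p with hq'
  set t := √(d - B ^ 2 / a) with ht'
  have hda : 0 < d - B ^ 2 / a := by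
    have : d - B ^ 2 / a = (a * d - B ^ 2) / a := by field_simp
    rw [this]; positivity
  have ht : 0 < t := Real.sqrt_pos.2 hda
  have ht2 : t ^ 2 = d - B ^ 2 / a := Real.sq_sqrt hda.le
  have hG : ∀ θ, (p * cos θ + q * sin θ) ^ 2 + (t * sin θ) ^ 2
      = m + A * cos (2 * θ) + B * sin (2 * θ) := by
    intro θ
    have hpq : p * q = B := by rw [hq']; field_simp
    have hq2 : q ^ 2 = B ^ 2 / a := by rw [hq', div_pow, hp2]
    have e : (p * cos θ + q * sin θ) ^ 2 + (t * sin θ) ^ 2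
      = p ^ 2 * cos θ ^ 2 + 2 * (p * q) * sin θ * cos θ + (q ^ 2 + t ^ 2) * sin θ ^ 2 := by ring
    rw [e, hp2, hpq, hq2, ht2, Real.cos_two_mul, Real.sin_two_mul, ha', hd']
    have := Real.sin_sq_add_cos_sq θ
    have h2 : sin θ ^ 2 = 1 - cos θ ^ 2 := by linarith
    ring_nf
    rw [h2]
    ring
  refine ⟨(TT p q t hp.ne' ht.ne').toAffineEquiv.trans (AffineEquiv.constVAdd ℝ E2 v), ?_⟩
  ext x
  rw [mem_iff hK hc hne]
  have key : ∀ y : E2, (∀ θ, pr (TT p q t hp.ne' ht.ne' y + v) θ ≤ hs K θ) ↔ ‖y‖ ≤ 1 := by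
    intro y
    rw [mem_ball_iff (q := q) hp.ne' ht.ne' y]
    apply forall_congr'
    intro θ
    rw [pr_add, hh θ, hG θ, add_le_add_iff_right]
  constructor
  · intro H
    refine ⟨(TT p q t hp.ne' ht.ne').symm (x - v), ?_, ?_⟩
    · rw [mem_closedBall_zero_iff, ← key]
      simpa using H
    · simp
  · rintro ⟨y, hy, rfl⟩
    rw [mem_closedBall_zero_iff, ← key] at hy
    intro θ
    have := hy θ
    simpa [add_comm] using this

theorem of_Hyp {K : Set E2} (hK : IsCompact K) (hc : Convex ℝ K) (h0 : (0 : E2) ∈ interior K)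
    (hyp : Hyp K) : ∃ f : E2 ≃ᵃ[ℝ] E2, K = f '' Metric.closedBall 0 1 := by
  have hne : K.Nonempty := ⟨0, interior_subset h0⟩
  obtain ⟨s1, hs1, hs1', lev⟩ := level hK h0 hyp
  obtain ⟨r, hr, hlow⟩ := pos_of_interior hK h0
  obtain ⟨R, hR⟩ := hK.isBounded.subset_closedBall 0
  have hup : ∀ θ, hs K θ ≤ R := by
    intro θ
    apply hs_le hK hne
    intro y hy
    exact (pr_le_norm y θ).trans (by simpa using hR hy)
  have hRpos : 0 < R := lt_of_lt_of_le hr ((hlow 0).trans (hup 0))
  have hL := hs_lip hK hne hR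
  have hcont := hs_continuous hK hne
  have hper := hs_periodic K
  have lev' : Lev (hs K) s1 := lev
  obtain ⟨u, w, hD⟩ := DD_eq hcont hper hr hlow hup hRpos.le hL hs1 hs1' lev'
  have hHper : ∀ θ, HH (hs K) (θ + π) ^ 2 = HH (hs K) θ ^ 2 := by
    intro θ
    simp only [HH]
    rw [show θ + π + π = θ + 2 * π by ring, hper, add_comm]
  obtain ⟨m, A, B, hG⟩ := G_eq (G := fun θ => HH (hs K) θ ^ 2) hs1 hs1' hHper
    (fun s h1 h2 θ => G_deriv hcont hr hlow hup hs1 lev' hD h1 h2 θ)
  have hHpos : ∀ θ, 0 < HH (hs K) θ := fun θ => by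
    simp only [HH]; linarith [hlow θ, hlow (θ + π)]
  apply ellipse hK hc hne (m := m) (A := A) (B := B) (v := !₂[u, w])
  · intro θ
    rw [← hG θ]
    have := hHpos θ
    positivity
  · intro θ
    rw [← hG θ]
    rw [Real.sqrt_sq (hHpos θ).le]
    have h1 := hD θ
    have h2 : pr (!₂[u, w] : E2) θ = u * cos θ + w * sin θ := by simp [pr]
    rw [h2, ← h1]
    simp only [HH, DD]
    ring

/-- translation to the origin -/
theorem main {K : Set E2} (hK : IsCompact K) (hc : Convex ℝ K) (hint : (interior K).Nonempty)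
    (hyp : Hyp K) : ∃ f : E2 ≃ᵃ[ℝ] E2, K = f '' Metric.closedBall 0 1 := by
  obtain ⟨x0, hx0⟩ := hint
  have hne : K.Nonempty := ⟨x0, interior_subset hx0⟩
  set K' : Set E2 := (fun x => x + -x0) '' K with hK'
  have hK'c : IsCompact K' := hK.image (by fun_prop)
  have hK'v : Convex ℝ K' := by
    have := hc.translate (-x0)
    have he : K' = (fun x => -x0 + x) '' K := by
      rw [hK']; congr 1; funext x; exact add_comm _ _
    rw [he]; exact this
  have hK'0 : (0 : E2) ∈ interior K' := by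
    have he : K' = (Homeomorph.addRight (-x0)) '' K := rfl
    rw [he, ← Homeomorph.image_interior]
    exact ⟨x0, hx0, by simp⟩
  have hhs : hs K' = fun θ => hs K θ + pr (-x0) θ := by
    funext θ; exact hs_translate hK hne (-x0) θ
  have hFF : ∀ x, FF (hs K') x = FF (hs K) (x + x0) := by
    intro x
    have := FF_translate (hs_continuous hK hne) (x + x0) (-x0)
    rw [← this, hhs]
    congr 1
    simp
  have hLL : ∀ l, LL (hs K') l = (fun x => x + -x0) '' (LL (hs K) l) := by
    intro l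
    ext x
    simp only [LL, mem_ofPred_eq, mem_image]
    rw [hFF]
    constructor
    · intro h
      exact ⟨x + x0, h, by simp⟩
    · rintro ⟨y, hy, rfl⟩
      simpa using hy
  have hWK : W K' = W K := W_translate hK hne (-x0)
  obtain ⟨r, hr, hlow⟩ := pos_of_interior hK'c hK'0
  have hyp' : Hyp K' := by
    intro l hl x y hxy hlt
    have hLc' : IsCompact (LL (hs K') l) :=
      LL_compact (hs_continuous hK'c ⟨0, interior_subset hK'0⟩) (hs_periodic K')
        (fun θ => hr.le.trans (hlow θ)) l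
    have hLc : IsCompact (LL (hs K) l) := by
      have h1 : LL (hs K) l = (fun x => x + x0) '' (LL (hs K') l) := by
        rw [hLL]
        rw [image_image]; simp
      rw [h1]
      exact hLc'.image (by fun_prop)
    have hLint : (0 : E2) ∈ interior (LL (hs K') l) :=
      LL_interior (hs_continuous hK'c ⟨0, interior_subset hK'0⟩)
        (fun θ => hr.le.trans (hlow θ)) hl
    have hLne : (LL (hs K) l).Nonempty := by
      have : (LL (hs K') l).Nonempty := ⟨0, interior_subset hLint⟩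
      rw [hLL] at this
      exact this.of_image
    have hhsL : hs (LL (hs K') l) = fun θ => hs (LL (hs K) l) θ + pr (-x0) θ := by
      funext θ; rw [hLL]; exact hs_translate hLc hLne (-x0) θ
    have hFFL : ∀ x, FF (hs (LL (hs K') l)) x = FF (hs (LL (hs K) l)) (x + x0) := by
      intro x
      have := FF_translate (hs_continuous hLc hLne) (x + x0) (-x0)
      rw [← this, hhsL]
      congr 1
      simp
    have hWL : W (LL (hs K') l) = W (LL (hs K) l) := by
      rw [hLL]; exact W_translate hLc hLne (-x0)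
    rw [hFFL, hFFL] at hxy
    rw [hWL, hFFL] at hlt
    rw [hWK] at hl
    rw [hFF, hFF]
    exact hyp l hl _ _ hxy hlt
  obtain ⟨f, hf⟩ := of_Hyp hK'c hK'v hK'0 hyp'
  refine ⟨f.trans (AffineEquiv.constVAdd ℝ E2 x0), ?_⟩
  have h1 : K = (fun x => x + x0) '' K' := by
    rw [hK', image_image]; simp
  rw [h1, hf, image_image]
  simp [add_comm]

end Pool.Agent.K9h61.StrEnd
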