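import Pool.Agent.K9h61.StrEnd4

set_option autoImplicit false
open Real Set Filter Topology MeasureTheory
open Pool.Agent.R763.Str

namespace Pool.Agent.K9h61.StrEnd

theorem LL_props {K : Set E2} (hK : IsCompact K) (hint : (interior K).Nonempty) {l : ℝ}
    (hl : W K < l) : IsCompact (LL (hs K) l) ∧ Convex ℝ (LL (hs K) l) ∧
      (interior (LL (hs K) l)).Nonempty := by
  obtain ⟨x0, hx0⟩ := hint
  have hne : K.Nonempty := ⟨x0, interior_subset hx0⟩
  set K' : Set E2 := (fun x => x + -x0) '' K with hK'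
  have hK'c : IsCompact K' := hK.image (by fun_prop)
  have hK'0 : (0 : E2) ∈ interior K' := by
    have he : K' = (Homeomorph.addRight (-x0)) '' K := rfl
    rw [he, ← Homeomorph.image_interior]
    exact ⟨x0, hx0, by simp⟩
  have hhs : hs K' = fun θ => hs K θ + pr (-x0) θ := by
    funext θ; exact hs_translate hK hne (-x0) θ
  have hFF : ∀ x, FF (hs K') x = FF (hs K) (x + x0) := by
    intro x
    have := FF_translate (hs_continuous hK hne) (x + x0) (-x0)
    rw [← this, hhs]
    congr 1
    simp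
  have hWK : W K' = W K := W_translate hK hne (-x0)
  obtain ⟨r, hr, hlow⟩ := pos_of_interior hK'c hK'0
  have hLc' : IsCompact (LL (hs K') l) :=
    LL_compact (hs_continuous hK'c ⟨0, interior_subset hK'0⟩) (hs_periodic K')
      (fun θ => hr.le.trans (hlow θ)) l
  have hLint : (0 : E2) ∈ interior (LL (hs K') l) := by
    rw [← hWK] at hl
    exact LL_interior (hs_continuous hK'c ⟨0, interior_subset hK'0⟩)
      (fun θ => hr.le.trans (hlow θ)) hl
  have h1 : LL (hs K) l = (Homeomorph.addRight x0) '' (LL (hs K') l) := by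
    ext x
    simp only [LL, mem_ofPred_eq, mem_image]
    constructor
    · intro h
      refine ⟨x - x0, ?_, by simp⟩
      rw [hFF]; simpa using h
    · rintro ⟨y, hy, rfl⟩
      rw [hFF] at hy
      exact hy
  refine ⟨?_, LL_convex (hs_continuous hK hne) l, ?_⟩
  · rw [h1]; exact hLc'.image (Homeomorph.continuous _)
  · rw [h1, ← Homeomorph.image_interior]
    exact ⟨_, 0, hLint, rfl⟩

theorem of_transitive {K : Set E2} (hK : IsCompact K) (hc : Convex ℝ K)
    (hint : (interior K).Nonempty)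
    (H : ∀ ℓ1 : ℝ, (μH[1] (frontier K)).toReal < ℓ1 → ∀ ℓ2 : ℝ,
      (μH[1] (frontier {x : E2 | (μH[1] (frontier (convexHull ℝ (insert x K)))).toReal ≤ ℓ1})).toReal
        < ℓ2 → ∃ ℓ3 : ℝ,
        {y : E2 | (μH[1] (frontier (convexHull ℝ (insert y
          {x : E2 | (μH[1] (frontier (convexHull ℝ (insert x K)))).toReal ≤ ℓ1})))).toReal = ℓ2}
        = {y : E2 | (μH[1] (frontier (convexHull ℝ (insert y K)))).toReal = ℓ3}) :
    ∃ f : E2 ≃ᵃ[ℝ] E2, K = f '' Metric.closedBall 0 1 := by
  apply main hK hc hint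
  intro l hl x y hxy hlt
  obtain ⟨hLc, hLv, hLi⟩ := LL_props hK hint hl
  have hL : {x : E2 | (μH[1] (frontier (convexHull ℝ (insert x K)))).toReal ≤ l} = LL (hs K) l := by
    ext z
    simp only [LL, mem_ofPred_eq]
    rw [perim_hull hK hc hint]
  have h1 := H l (by rw [perim_toReal hK hc hint]; exact hl)
  rw [hL, perim_toReal hLc hLv hLi] at h1
  obtain ⟨l3, h3⟩ := h1 _ hlt
  have h4 : ∀ z, FF (hs (LL (hs K) l)) z = FF (hs (LL (hs K) l)) x → FF (hs K) z = l3 := by
    intro z hz
    have : z ∈ {y : E2 | (μH[1] (frontier (convexHull ℝ (insert y (LL (hs K) l))))).toReal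
        = FF (hs (LL (hs K) l)) x} := by
      rw [mem_ofPred_eq, perim_hull hLc hLv hLi]; exact hz
    rw [h3, mem_ofPred_eq, perim_hull hK hc hint] at this
    exact this
  rw [h4 x rfl, h4 y hxy.symm]

end Pool.Agent.K9h61.StrEnd
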